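import Pool.Agent.Helper65.NX.Goals2

/-! AVAL: the contents of the net of a cellular automaton. -/

set_option autoImplicit false

namespace Pool.Agent.Helper65.NX.K8

open Pool.Agent.Helper65.NX
open Pool.Agent.Helper65.LinSpace Pool.Agent.Helper78.Mpc Pool.Agent.Helper28.Ram Finset
open Pool.Agent.Helper65.HC

/-- the digits of the name of a cell -/
def dv {D : ℕ} (b : ℕ) (v : Fin D → ℤ) (j : ℕ) : ℕ :=
  if h : j < D then (v ⟨j, h⟩ % 2 ^ b).toNat else 0

theorem nm_eq {D : ℕ} (b : ℕ) (v : Fin D → ℤ) :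
    nm b v = pad (D * b) (tab (2 ^ b) D (dv b v)).bits := rfl

theorem dv_lt {D : ℕ} (b : ℕ) (v : Fin D → ℤ) (j : ℕ) : dv b v j < 2 ^ b := by
  have hq : (0 : ℤ) < 2 ^ b := by positivity
  unfold dv
  split_ifs with h
  · have h1 := Int.emod_lt_of_pos (v ⟨j, h⟩) hq
    have h2 := Int.emod_nonneg (v ⟨j, h⟩) hq.ne'
    have h3 : (((v ⟨j, h⟩ % 2 ^ b).toNat : ℕ) : ℤ) < ((2 ^ b : ℕ) : ℤ) := by
      rw [Int.toNat_of_nonneg h2]
      push_cast
      exact h1
    exact_mod_cast h3
  · positivity

theorem tab_lt' {D b : ℕ} {d : ℕ → ℕ} (h : ∀ j < D, d j < 2 ^ b) :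
    tab (2 ^ b) D d < 2 ^ (D * b) := by
  rw [mul_comm D b, pow_mul]
  exact tab_lt h

theorem length_pad_tab {D b : ℕ} {d : ℕ → ℕ} (h : ∀ j < D, d j < 2 ^ b) :
    (pad (D * b) (tab (2 ^ b) D d).bits).length = D * b := by
  rw [length_pad]
  exact max_eq_left (length_bits (tab_lt' h))

theorem length_nm {D : ℕ} (b : ℕ) (v : Fin D → ℤ) : (nm b v).length = D * b := by
  rw [nm_eq]
  exact length_pad_tab fun j _ => dv_lt b v j

theorem bval_nm {D : ℕ} (b : ℕ) (v : Fin D → ℤ) : bval (nm b v) = tab (2 ^ b) D (dv b v) := by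
  rw [nm_eq, bval_pad, Pool.Agent.Helper31.TMS.bval_bits]

theorem toNat_mod {b : ℕ} {x : ℕ} {y : ℤ} (h : ∃ k : ℤ, (x : ℤ) = y + 2 ^ b * k) :
    x % 2 ^ b = (y % 2 ^ b).toNat := by
  obtain ⟨k, hk⟩ := h
  have h1 : ((x % 2 ^ b : ℕ) : ℤ) = y % 2 ^ b := by
    push_cast
    rw [hk, Int.add_mul_emod_self_left]
  rw [← h1, Int.toNat_natCast]

/-- the view -/
theorem view_eq (N : Net) (n : ℕ) (p : List Bool) (t : ℕ) (V : List Bool → List Bool)
    (z : List Bool) (i : ℕ) : N.view n p t V z i =
      hd n t p z ++ (List.range i).flatMap fun i => sd (V (N.inp n p t z i)) := by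
  induction i with
  | zero =>
    show hd n t p z = _
    simp
  | succ i ih =>
    show N.view n p t V z i ++ sd (V (N.inp n p t z i)) = _
    rw [ih, List.range_succ, List.flatMap_append, List.append_assoc]
    simp

theorem toList_get (o : Option Bool) : o.toList[0]? = o := by
  cases o <;> rfl

section

variable {D : ℕ} [NeZero D]

theorem D_pos : 0 < D := Nat.pos_of_ne_zero (NeZero.ne D)

theorem len_div (b : ℕ) : (List.replicate (D * b) false).length / D = b := by
  rw [List.length_replicate, Nat.mul_div_cancel_left _ D_pos]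

/-- the neighbours -/
theorem inp_nm (N : Net) (hnb : N.nb = anb D) (n b t : ℕ) (v : Fin D → ℤ) (i : ℕ) :
    N.inp n (List.replicate (D * b) false) t (nm b v) i =
      nm b fun j => v j + ((dl D i j : ℕ) : ℤ) - 1 := by
  set p := List.replicate (D * b) false with hp
  have hlen : p.length = D * b := List.length_replicate
  have hdiv : p.length / D = b := len_div b
  have hkey : N.nb (hd n t p (nm b v) ++ i.bits) =
      nm b fun j => v j + ((dl D i j : ℕ) : ℤ) - 1 := by
    rw [hnb]
    unfold anb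
    rw [hp_hd, hz_hd, hr_hd, Pool.Agent.Helper31.TMS.bval_bits, bval_nm, hdiv, nm_eq, hlen]
    congr 2
    refine tab_congr fun j hj => ?_
    rw [dig_tab (fun j _ => dv_lt b v j) hj]
    have hq : (0 : ℤ) < 2 ^ b := by positivity
    have h3 : dig 3 i j % 3 = dig 3 i j := Nat.mod_eq_of_lt (dig_lt (by norm_num) _ _)
    have e1 : dv b v j = (v ⟨j, hj⟩ % 2 ^ b).toNat := by
      unfold dv
      rw [dif_pos hj]
    have e2 : dv b (fun j => v j + ((dl D i j : ℕ) : ℤ) - 1) j =
        ((v ⟨j, hj⟩ + (dig 3 i j : ℤ) - 1) % 2 ^ b).toNat := by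
      unfold dv
      rw [dif_pos hj]
      simp only [dl]
      rw [h3]
    rw [e2]
    apply toNat_mod
    have h2 := Int.emod_nonneg (v ⟨j, hj⟩) hq.ne'
    have h4 : 1 ≤ 2 ^ b := Nat.one_le_two_pow
    refine ⟨1 - v ⟨j, hj⟩ / 2 ^ b, ?_⟩
    have h5 := Int.emod_add_mul_ediv (v ⟨j, hj⟩) (2 ^ b)
    have h6 : ((dv b v j + dig 3 i j + 2 ^ b - 1 : ℕ) : ℤ) =
        v ⟨j, hj⟩ % 2 ^ b + (dig 3 i j : ℤ) + 2 ^ b - 1 := by
      rw [Nat.cast_sub (by omega)]
      push_cast
      rw [e1, Int.toNat_of_nonneg h2]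
    rw [h6]
    linear_combination h5
  unfold Net.inp
  rw [hkey, length_nm, hlen, if_pos rfl]

/-- the initial contents -/
theorem start_eq {State : Type} (f : Option Bool → Option Bool → State) (w y : List Bool) (b : ℕ)
    (v : Fin D → ℤ) (hv : ∀ j, 2 * |v j| < 2 ^ b) :
    (if 2 * bval (nm b v) < 2 ^ b then f w[bval (nm b v)]? y[bval (nm b v)]? else f none none) =
      f (cellBit w v) (cellBit y v) := by
  classical
  have hq : (0 : ℤ) < 2 ^ b := by positivity
  have hqn : 0 < 2 ^ b := by positivity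
  obtain ⟨D', rfl⟩ : ∃ D', D = D' + 1 := ⟨D - 1, by have := @D_pos D _; omega⟩
  have hb : bval (nm b v) = dv b v 0 + 2 ^ b * tab (2 ^ b) D' (fun i => dv b v (i + 1)) := by
    rw [bval_nm, tab_succ']
  have hz0 : (0 : Fin (D' + 1)) = ⟨0, Nat.succ_pos _⟩ := rfl
  have hd0 : ∀ j (hj : j < D' + 1), (dv b v j : ℤ) = v ⟨j, hj⟩ % 2 ^ b := by
    intro j hj
    unfold dv
    rw [dif_pos hj, Int.toNat_of_nonneg (Int.emod_nonneg _ hq.ne')]
  by_cases hc : (∀ j : Fin (D' + 1), j ≠ 0 → v j = 0) ∧ 0 ≤ v 0
  · obtain ⟨hc1, hc2⟩ := hc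
    have h1 : tab (2 ^ b) D' (fun i => dv b v (i + 1)) = 0 := by
      unfold tab
      refine Finset.sum_eq_zero fun j hj => ?_
      have hj' : j + 1 < D' + 1 := by
        have := mem_range.1 hj
        omega
      have h2 : (dv b v (j + 1) : ℤ) = 0 := by
        rw [hd0 (j + 1) hj', hc1 ⟨j + 1, hj'⟩ ?_, Int.zero_emod]
        intro h
        have := congrArg Fin.val h
        simp at this
      have h3 : dv b v (j + 1) = 0 := by exact_mod_cast h2
      beta_reduce
      rw [h3, zero_mul]
    have h4 : (dv b v 0 : ℤ) = v 0 := by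
      rw [hd0 0 (Nat.succ_pos _), ← hz0]
      apply Int.emod_eq_of_lt hc2
      have := hv 0
      rw [abs_of_nonneg hc2] at this
      omega
    have h5 : bval (nm b v) = (v 0).toNat := by
      rw [hb, h1, mul_zero, add_zero, ← h4, Int.toNat_natCast]
    have h6 : 2 * bval (nm b v) < 2 ^ b := by
      have h7 := hv 0
      rw [abs_of_nonneg hc2, ← h4] at h7
      rw [hb, h1, mul_zero, add_zero]
      exact_mod_cast h7
    rw [if_pos h6]
    unfold cellBit
    rw [if_pos ⟨hc1, hc2⟩, if_pos ⟨hc1, hc2⟩, h5]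
  · have h6 : ¬ 2 * bval (nm b v) < 2 ^ b := by
      intro h6
      apply hc
      have h1 : tab (2 ^ b) D' (fun i => dv b v (i + 1)) = 0 := by
        by_contra h
        have h2 : 2 ^ b * 1 ≤ 2 ^ b * tab (2 ^ b) D' (fun i => dv b v (i + 1)) :=
          Nat.mul_le_mul_left _ (Nat.pos_of_ne_zero h)
        omega
      constructor
      · intro j hj
        have hj0 : (j : ℕ) ≠ 0 := fun h => hj (Fin.ext h)
        obtain ⟨i, hi⟩ : ∃ i, (j : ℕ) = i + 1 := ⟨(j : ℕ) - 1, by omega⟩
        have hi' : i ∈ range D' := mem_range.2 (by have := j.2; omega)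
        have h3 := (Finset.sum_eq_zero_iff.1 h1) i hi'
        have h4 : dv b v (i + 1) = 0 := by
          rcases Nat.mul_eq_zero.1 h3 with h | h
          · exact h
          · exact absurd h (by positivity)
        have h5 : v j % 2 ^ b = 0 := by
          have h7 := hd0 (i + 1) (by have := j.2; omega)
          rw [h4] at h7
          have h8 : (⟨i + 1, by have := j.2; omega⟩ : Fin (D' + 1)) = j := Fin.ext hi.symm
          rw [h8] at h7
          exact_mod_cast h7.symm
        have h7 : |v j| < 2 ^ b := by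
          have := hv j
          have := abs_nonneg (v j)
          omega
        exact Int.eq_zero_of_abs_lt_dvd (Int.dvd_of_emod_eq_zero h5) h7
      · by_contra h
        push Not at h
        have h3 : v 0 % 2 ^ b = v 0 + 2 ^ b := by
          have h4 := Int.add_emod_right (v 0) (2 ^ b)
          rw [← h4]
          have h5 := hv 0
          rw [abs_of_neg h] at h5
          apply Int.emod_eq_of_lt <;> omega
        have h4 := hd0 0 (Nat.succ_pos _)
        rw [← hz0, h3] at h4
        have h5 := hv 0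
        rw [abs_of_neg h] at h5
        rw [hb, h1, mul_zero, add_zero] at h6
        have h7 : 2 * (dv b v 0 : ℤ) < 2 ^ b := by exact_mod_cast h6
        rw [h4] at h7
        omega
    rw [if_neg h6]
    unfold cellBit
    rw [if_neg hc, if_neg hc]

theorem aval : Pool.Agent.Helper65.NX.AVAL_stmt := by
  intro D _ A N hN hinj w y b t
  set p := List.replicate (D * b) false with hp
  have hlen : p.length = D * b := List.length_replicate
  have hdiv : p.length / D = b := len_div b
  -- one step
  have hstep : ∀ (τ : ℕ) (V : List Bool → List Bool) (z : List Bool), 2 * (τ + 1) < 2 ^ b →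
      N.step w y p τ V z = anext A (sd w[bval z]?.toList ++ (sd y[bval z]?.toList ++
        (hd w.length τ p z ++ (List.range (3 ^ D)).flatMap fun i =>
          sd (V (N.inp w.length p τ z i))))) := by
    intro τ V z _
    unfold Net.step
    simp only
    rw [view_eq, hN.deg, hN.next, hN.addr]
    simp only [List.drop_succ_cons, List.drop_zero]
    rw [hz_hd]
  have halive : ∀ (τ : ℕ) (z r : List Bool), 2 * (τ + 1) < 2 ^ b →
      Alive D (hd w.length τ p z ++ r) := by
    intro τ z r hτ
    unfold Alive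
    rw [hp_hd, ht_hd, hdiv, hlen]
    exact ⟨rfl, bval_replicate _, hτ⟩
  induction t with
  | zero =>
    intro v hb hv
    show N.step w y p 0 (N.val w y p 0) (nm b v) = _
    rw [hstep 0 _ _ hb]
    unfold anext
    rw [re_sd, re_sd, if_pos (halive 0 _ _ hb), ht_hd, if_pos rfl, hz_hd, hp_hd, hdiv, pr_sd,
      pr_sd, toList_get, toList_get]
    have h := start_eq (fun a c => sc A (A.init a c)) w y b v (fun j => by
      have := hv j
      simpa using this)
    exact h
  | succ t ih =>
    intro v hb hv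
    have hb' : 2 * (t + 1) < 2 ^ b := by omega
    show N.step w y p (t + 1) (N.val w y p (t + 1)) (nm b v) = _
    rw [hstep (t + 1) _ _ hb]
    have hview : ((List.range (3 ^ D)).flatMap fun i =>
        sd (N.val w y p (t + 1) (N.inp w.length p (t + 1) (nm b v) i))) =
        cw A (fun δ => A.config w y t fun j => v j + ((δ j : ℕ) : ℤ) - 1) := by
      unfold cw
      congr 1
      funext i
      congr 1
      rw [inp_nm N hN.nb w.length b (t + 1) v i]
      apply ih _ hb'
      intro j
      have h1 := hv j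
      push_cast at h1
      have h2 : ((dl D i j : ℕ) : ℤ) ≤ 2 := by
        have := (dl D i j).2
        omega
      have h3 : (0 : ℤ) ≤ ((dl D i j : ℕ) : ℤ) := Int.natCast_nonneg _
      have h4 : |v j + ((dl D i j : ℕ) : ℤ) - 1| ≤ |v j| + 1 := by
        rw [abs_le]
        have h5 := neg_abs_le (v j)
        have h6 := le_abs_self (v j)
        constructor <;> omega
      omega
    rw [hview]
    unfold anext
    rw [re_sd, re_sd, if_pos (halive (t + 1) _ _ hb), ht_hd, if_neg (Nat.succ_ne_zero t), hr_hd]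
    have hex : ∃ g, cw A (fun δ => A.config w y t fun j => v j + ((δ j : ℕ) : ℤ) - 1) =
        cw A g := ⟨_, rfl⟩
    rw [dif_pos hex]
    have hch := hinj _ _ (Classical.choose_spec hex)
    rw [← hch]
    rfl

end

end Pool.Agent.Helper65.NX.K8
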